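import Mathlib
import Pool.Agent.T6.H69.EHM.Final

/-!
# Property (P) above a cardinal `μ` and free sequences in `μ`

The free sequence property of an infinite cardinal `μ` implies property (P) for all limit ordinals
whose uncountable Cantor normal form terms have cardinality above `μ`. If `2 ^ μ = μ⁺`, it is also
necessary for property (P) of all indecomposable ordinals of cardinality `μ⁺`.
-/

set_option autoImplicit false

namespace Pool.Agent.Results.MP_95a8e7_lc.FreeSequencesCriterion

open Cardinal Ordinal

/-- Property (P) of the ordinal `α`: every graph on `α` (realised as the well-ordered type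
`α.ToType` of order type `α`) has an infinite path (an injective sequence of vertices, consecutive
ones adjacent) or an independent set of order type `α`. -/
def PropP (α : Ordinal.{0}) : Prop :=
  ∀ G : SimpleGraph α.ToType,
    (∃ v : ℕ → α.ToType, Function.Injective v ∧ ∀ n, G.Adj (v n) (v (n + 1))) ∨
    ∃ S : Set α.ToType, G.IsIndepSet S ∧ typeLT S = α

/-- The free sequence property: for every map `B` from the finite sequences of elements of `D` to
the finite subsets of `D` there is an infinite sequence `x` in `D` such that `x k` is never an
element of `B (x (k + 1), …, x (k + n))`. -/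
def FreeSequences (D : Type) : Prop :=
  ∀ B : List D → Set D, (∀ s, (B s).Finite) →
    ∃ x : ℕ → D, ∀ k n, x k ∉ B ((List.range n).map fun j => x (k + 1 + j))

/-- Let `μ` be an infinite cardinal. If `μ` has the free sequence property, then every limit ordinal
all of whose uncountable Cantor normal form terms have cardinality above `μ` has property (P).
Conversely, if `2 ^ μ = μ⁺` and all additively indecomposable ordinals of cardinality `μ⁺` have
property (P), then `μ` has the free sequence property. -/
theorem result (μ : Cardinal.{0}) (hμ : ℵ₀ ≤ μ) :
    (FreeSequences μ.ord.ToType → ∀ α : Ordinal.{0}, Order.IsSuccLimit α →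
      (∀ γ ∈ (CNF ω α).map Prod.fst, ℵ₀ < (ω ^ γ).card → μ < (ω ^ γ).card) → PropP α) ∧
    ((2 : Cardinal.{0}) ^ μ = Order.succ μ →
      (∀ α : Ordinal.{0}, IsPrincipal (· + ·) α → α.card = Order.succ μ → PropP α) →
      FreeSequences μ.ord.ToType) := by
  have h : ∀ α : Ordinal.{0}, PropP α ↔ TH764.OG.Rel α := fun α => forall_congr' fun _ => or_comm
  refine ⟨fun hF α hα hc => (h α).2 (T6.H69.EHM.rel_of_free hμ hF hα hc), fun h2 hP => ?_⟩
  exact (T6.H69.EHM.free_iff hμ h2).2 fun α h1 hc => (h α).1 (hP α h1 hc)

end Pool.Agent.Results.MP_95a8e7_lc.FreeSequencesCriterion
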