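import Mathlib
import Pool.Agent.T6.H69.EHM.Final

/-!
# The Erdős–Hajnal–Milner conjecture on infinite paths is independent

The conjecture says that every limit ordinal `α` has property (P): every graph on `α` contains an
infinite path or an independent set of order type `α`.

* The continuum hypothesis refutes the conjecture.
* The conjecture holds if some infinite cardinal `μ` has two combinatorial properties: the free
  sequence property and the covering property.
* Every cardinal `μ` with `μ → (ω)^{<ω}_2` has the free sequence property.
* If `μ` has the free sequence property, then all conditions of the notion of forcing which adds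
  more than `μ` Cohen reals force both properties of `μ`.

So the conjecture holds in the extension of a model with a cardinal `μ → (ω)^{<ω}_2` by `μ⁺` Cohen
reals, and it fails in all models of the continuum hypothesis.
-/

set_option autoImplicit false

namespace Pool.Agent.Results.MP_95a8e7_lc.Independence

open Cardinal Ordinal
open Pool.Agent.Helper669.Forcing (fnot fand fall fimp fex fground meets IsFun)

/-- Property (P) of the ordinal `α`: every graph on `α` (realised as the well-ordered type
`α.ToType` of order type `α`) has an infinite path (an injective sequence of vertices, consecutive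
ones adjacent) or an independent set of order type `α`. -/
def PropP (α : Ordinal.{0}) : Prop :=
  ∀ G : SimpleGraph α.ToType,
    (∃ v : ℕ → α.ToType, Function.Injective v ∧ ∀ n, G.Adj (v n) (v (n + 1))) ∨
    ∃ S : Set α.ToType, G.IsIndepSet S ∧ typeLT S = α

/-- The conjecture of Erdős, Hajnal and Milner. -/
def Conjecture : Prop := ∀ α : Ordinal.{0}, Order.IsSuccLimit α → PropP α

/-- The partition relation `D → (ω)^{<ω}_2`: for every colouring `c` of the finite subsets of `D`
with two colours there is an increasing sequence in `D` such that the colour of a finite set of its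
terms depends only on the number of the terms. -/
def Erdos (D : Type) [LinearOrder D] : Prop :=
  ∀ c : Finset D → Bool, ∃ f : ℕ ↪o D, ∀ s t : Finset ℕ, s.card = t.card →
    c (s.map f.toEmbedding) = c (t.map f.toEmbedding)

/-- The free sequence property: for every map `B` from the finite sequences of elements of `D` to
the finite subsets of `D` there is an infinite sequence `x` in `D` such that `x k` is never an
element of `B (x (k + 1), …, x (k + n))`. -/
def FreeSequences (D : Type) : Prop :=
  ∀ B : List D → Set D, (∀ s, (B s).Finite) →
    ∃ x : ℕ → D, ∀ k n, x k ∉ B ((List.range n).map fun j => x (k + 1 + j))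

/-- The finite set `t` of pairs is the graph of a partial function from `D` to `Bool`. -/
def IsPartial {D : Type} (t : Finset (D × Bool)) : Prop :=
  ∀ x b b', (x, b) ∈ t → (x, b') ∈ t → b = b'

/-- The covering property: for every family, indexed by `D`, of dense sets of finite partial
functions from `D` to `Bool` there is a function `c : D → Bool` which extends an element of each of
them. (That is, the Cantor cube `{0,1}^D` is not the union of `#D` nowhere dense sets.) -/
def Covering (D : Type) : Prop :=
  ∀ E : D → Set (Finset (D × Bool)), (∀ i s, IsPartial s → ∃ t ∈ E i, IsPartial t ∧ s ⊆ t) →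
    ∃ c : D → Bool, ∀ i, ∃ t ∈ E i, ∀ p ∈ t, c p.1 = p.2

/-- The set of the conditions forcing that `D` has the free sequence property. A name `B` is given
by the sets `B s y` of conditions attached to the statements `y ∈ B s`; that `B s` is finite is
expressed by saying that it is contained in a finite set `F` of the ground model. -/
def ForcesFreeSequences (P : Type) [Preorder P] (D : Type) : Set P :=
  fall fun B : List D → D → Set P =>
    fimp (fall fun s => fex fun F : Finset D => fall fun y =>
        fimp (meets (B s y)) (fground (y ∈ F)))
      (fex fun X : ℕ → D → Set P => fand (IsFun X)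
        (fall fun k : ℕ => fall fun s : List D => fall fun y : D =>
          fimp (fand (meets (X k y)) (fall fun i : Fin s.length =>
              meets (X (k + 1 + i) (s.get i))))
            (fnot (meets (B s y)))))

/-- The set of the conditions forcing that `D` has the covering property. -/
def ForcesCovering (P : Type) [Preorder P] (D : Type) : Set P :=
  fall fun E : D → Finset (D × Bool) → Set P =>
    fimp (fall fun i => fall fun s => fall fun _ : IsPartial s => fex fun t =>
        fand (fground (IsPartial t ∧ s ⊆ t)) (meets (E i t)))
      (fex fun C : D → Bool → Set P => fand (IsFun C)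
        (fall fun i => fex fun t => fand (meets (E i t))
          (fall fun p : D × Bool => fall fun _ : p ∈ t => meets (C p.1 p.2))))

/-- A condition for adding Cohen reals indexed by `L`: a finite partial function from `L × ℕ` to
`Bool`, given by its graph. -/
abbrev Cohen (L : Type) : Type := Pool.Agent.Helper669.K.CC L

/-- **Main theorem.** -/
theorem result :
    ((2 : Cardinal.{0}) ^ (ℵ₀ : Cardinal.{0}) = ℵ₁ → ¬ Conjecture) ∧
    (∀ μ : Cardinal.{0}, ℵ₀ ≤ μ → FreeSequences μ.ord.ToType → Covering μ.ord.ToType →
      Conjecture) ∧
    (∀ μ : Cardinal.{0}, Erdos μ.ord.ToType → FreeSequences μ.ord.ToType) ∧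
    (∀ μ : Cardinal.{0}, ℵ₀ ≤ μ → FreeSequences μ.ord.ToType → ∀ L : Type, μ < #L →
      ∀ p : Cohen L, p ∈ ForcesFreeSequences (Cohen L) μ.ord.ToType ∧
        p ∈ ForcesCovering (Cohen L) μ.ord.ToType) := by
  have h : ∀ α : Ordinal.{0}, PropP α ↔ TH764.OG.Rel α := fun α => forall_congr' fun _ => or_comm
  refine ⟨fun hCH hC => ?_, fun μ hμ hF hCov α hα => ?_, fun μ hE => T6.H69.EHM.Erdos.freeSeq hE,
    fun μ hμ hF L hL p => ⟨?_, ?_⟩⟩
  · obtain ⟨α, h1, h2⟩ := T6.H69.EHM.not_rel_of_ch hCH
    exact h2 ((h α).1 (hC α h1))
  · exact (h α).2 (T6.H69.EHM.rel_all_cov hμ hF hCov hα)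
  · exact T6.H69.EHM.forced_free hF (fun ι f hι => Pool.Agent.Helper669.K.CC.ccc ι f hι) p
  · exact T6.H69.EHM.forced_cov (by rwa [Cardinal.mk_ord_toType])
      (by rwa [Cardinal.mk_ord_toType]) p

end Pool.Agent.Results.MP_95a8e7_lc.Independence
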